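import Pool.Agent.H17.CI.TargetsG

/-!
# MP_70ba79_ag: generic families have no operators with symbol zero
-/

set_option autoImplicit false

namespace Pool.Agent.H64.CI

open MvPolynomial SC Pool.Agent.H27.LV Pool.Agent.H17.VG Pool.Agent.H17.CI

section
variable {n : ℕ} {ι : Type} [Fintype ι] {e : ι → ℕ}

/-- entries for one monomial, over the rational numbers -/
noncomputable def re {d : ℕ} (a b : Fin (n + 1)) (f f' : Mon (n + 1) d) : ℚ :=
  coeff (fs f.1) (X b * pderiv a (mono ℚ f'.1))

theorem coeff_fr {L : Type} [Field L] {d : ℕ} (c : Mon (n + 1) d → L) (f : Mon (n + 1) d) :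
    coeff (fs f.1) (frm c) = c f := by
  unfold frm
  rw [coeff_sum, Finset.sum_eq_single f]
  · rw [coeff_C_mul, mono, coeff_monomial, if_pos rfl, mul_one]
  · intro f' _ hf'
    rw [coeff_C_mul, mono, coeff_monomial, if_neg, mul_zero]
    intro h
    exact hf' (Subtype.ext (fs_injective h))
  · intro h
    exact absurd (Finset.mem_univ _) h

theorem entry {L : Type} [Field L] [CharZero L] {d : ℕ} (c : Mon (n + 1) d → L)
    (a b : Fin (n + 1)) (f : Mon (n + 1) d) :
    coeff (fs f.1) (X b * pderiv a (frm c)) = ∑ f', c f' * algebraMap ℚ L (re a b f f') := by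
  have h1 : X b * pderiv a (frm c) =
      ∑ f', C (c f') * (X b * pderiv a (mono L f'.1)) := by
    unfold frm
    rw [map_sum, Finset.mul_sum]
    refine Finset.sum_congr rfl fun f _ => ?_
    rw [pderiv_C_mul]
    ring
  rw [h1, coeff_sum]
  refine Finset.sum_congr rfl fun f' _ => ?_
  rw [coeff_C_mul]
  congr 1
  have h2 : mono L f'.1 = MvPolynomial.map (algebraMap ℚ L) (mono ℚ f'.1) := by
    unfold mono
    rw [MvPolynomial.map_monomial, map_one (algebraMap ℚ L)]
  rw [h2, pderiv_map, re, ← coeff_map, map_mul, map_X]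

open Classical in
/-- the matrix of the linear map -/
noncomputable def MA (n : ℕ) (e : ι → ℕ) :
    Matrix (Σ i, Mon (n + 1) (e i + 1)) ((Fin n × Fin (n + 1)) ⊕ ι)
      (MvPolynomial (Σ i, Mon (n + 1) (e i + 1)) ℚ) :=
  Matrix.of fun r s => match s with
    | Sum.inl p => ∑ f', X ⟨r.1, f'⟩ * C (re p.1.succ p.2 r.2 f')
    | Sum.inr i => if r.1 = i then X r else 0

/-- the matrix of the unknowns -/
def Au {L : Type} [Field L] (u : (Fin n × Fin (n + 1)) ⊕ ι → L) :
    Matrix (Fin (n + 1)) (Fin (n + 1)) L :=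
  Fin.cons (fun _ => 0) fun a b => u (Sum.inl (a, b))

/-- the polynomials -/
noncomputable def EE {L : Type} [Field L] (c : (Σ i, Mon (n + 1) (e i + 1)) → L)
    (A : Matrix (Fin (n + 1)) (Fin (n + 1)) L) (l : ι → L) (i : ι) :
    MvPolynomial (Fin (n + 1)) L :=
  ∑ a, (∑ b, C (A a b) * X b) * pderiv a (frmT c i) + C (l i) * frmT c i

theorem EE_homog {L : Type} [Field L] (c : (Σ i, Mon (n + 1) (e i + 1)) → L)
    (A : Matrix (Fin (n + 1)) (Fin (n + 1)) L) (l : ι → L) (i : ι) :
    (EE c A l i).IsHomogeneous (e i + 1) := by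
  have hf : (frmT c i).IsHomogeneous (e i + 1) := frm_homog _
  refine IsHomogeneous.add ?_ ?_
  · refine IsHomogeneous.sum _ _ _ fun a _ => ?_
    have h1 : (∑ b, C (A a b) * X b : MvPolynomial (Fin (n + 1)) L).IsHomogeneous 1 := by
      refine IsHomogeneous.sum _ _ _ fun b _ => ?_
      have := (isHomogeneous_C (Fin (n + 1)) (A a b)).mul (isHomogeneous_X L b)
      rwa [zero_add] at this
    have h2 := h1.mul (hf.pderiv (i := a))
    rwa [Nat.add_sub_cancel, add_comm 1 (e i)] at h2
  · have := (isHomogeneous_C (Fin (n + 1)) (l i)).mul hf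
    rwa [zero_add] at this

theorem EE_coeff {L : Type} [Field L] [CharZero L] (c : (Σ i, Mon (n + 1) (e i + 1)) → L)
    (u : (Fin n × Fin (n + 1)) ⊕ ι → L) (r : Σ i, Mon (n + 1) (e i + 1)) :
    coeff (fs r.2.1) (EE c (Au u) (fun i => u (Sum.inr i)) r.1) =
      (((MA n e).map (aeval c)).mulVec u) r := by
  classical
  rw [Matrix.mulVec, dotProduct, Fintype.sum_sum_type, Fintype.sum_prod_type]
  unfold EE
  rw [coeff_add, coeff_C_mul, coeff_sum, Fin.sum_univ_succ]
  congr 1
  · have h0 : (∑ b, C ((Au u : Matrix _ _ L) 0 b) * X b : MvPolynomial (Fin (n + 1)) L) = 0 := by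
      refine Finset.sum_eq_zero fun b _ => ?_
      change C (0 : L) * X b = 0
      rw [C_0, zero_mul]
    rw [h0, zero_mul, coeff_zero, zero_add]
    refine Finset.sum_congr rfl fun a _ => ?_
    rw [Finset.sum_mul, coeff_sum]
    refine Finset.sum_congr rfl fun b _ => ?_
    have h1 : (Au u : Matrix _ _ L) a.succ b = u (Sum.inl (a, b)) := rfl
    rw [h1, mul_assoc, coeff_C_mul]
    have h2 : coeff (fs r.2.1) (X b * pderiv a.succ (frmT c r.1)) =
        ∑ f', c ⟨r.1, f'⟩ * algebraMap ℚ L (re a.succ b r.2 f') := entry _ _ _ _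
    rw [h2, mul_comm]
    congr 1
    rw [Matrix.map_apply, MA, Matrix.of_apply, map_sum]
    refine Finset.sum_congr rfl fun f' _ => ?_
    rw [map_mul, aeval_X, aeval_C]
  · rw [Finset.sum_eq_single r.1]
    · have h3 : coeff (fs r.2.1) (frmT c r.1) = c r := coeff_fr _ _
      rw [h3, Matrix.map_apply, MA, Matrix.of_apply]
      simp only [if_true, aeval_X]
      rw [mul_comm]
    · intro i _ hi
      rw [Matrix.map_apply, MA, Matrix.of_apply]
      simp only
      rw [if_neg (Ne.symm hi), map_zero, zero_mul]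
    · intro h
      exact absurd (Finset.mem_univ _) h

theorem ker_iff {L : Type} [Field L] [CharZero L] (c : (Σ i, Mon (n + 1) (e i + 1)) → L)
    (u : (Fin n × Fin (n + 1)) ⊕ ι → L) :
    ((MA n e).map (aeval c)).mulVec u = 0 ↔
      ∀ i, EE c (Au u) (fun i => u (Sum.inr i)) i = 0 := by
  constructor
  · intro h i
    rw [← frm_coeff (EE_homog c (Au u) (fun i => u (Sum.inr i)) i)]
    have h1 : (fun f : Mon (n + 1) (e i + 1) =>
        coeff (fs f.1) (EE c (Au u) (fun i => u (Sum.inr i)) i)) = fun _ => 0 := by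
      funext f
      rw [EE_coeff c u ⟨i, f⟩, h]
      rfl
    rw [h1]
    unfold frm
    exact Finset.sum_eq_zero fun f _ => by rw [C_0, zero_mul]
  · intro h
    funext r
    rw [← EE_coeff, h, coeff_zero]
    rfl

theorem map_det {L : Type} [Field L] [CharZero L] [DecidableEq ι]
    (c : (Σ i, Mon (n + 1) (e i + 1)) → L) :
    aeval c ((MA n e).transpose * MA n e).det =
      (((MA n e).map (aeval c)).transpose * (MA n e).map (aeval c)).det := by
  rw [AlgHom.map_det]
  congr 1
  rw [AlgHom.mapMatrix_apply, Matrix.map_mul, Matrix.transpose_map]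

end

theorem pf_FET (hHA : T_HA) : T_FET := by
  classical
  intro k _ _ n ι _ e c hn hc A l hA0 hA
  obtain ⟨c0, hc0⟩ := hHA n ι e hn
  have hne : ((MA n e).transpose * MA n e).det ≠ 0 := by
    intro h0
    have h1 := map_det c0
    rw [h0, map_zero] at h1
    obtain ⟨u, hu0, hu⟩ := Matrix.exists_mulVec_eq_zero_iff.2 h1.symm
    have h2 : u ∈ LinearMap.ker
        (((MA n e).map (aeval c0)).transpose * (MA n e).map (aeval c0)).mulVecLin := hu
    have h2' := Matrix.ker_mulVecLin_transpose_mul_self ((MA n e).map (aeval c0))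
    have h2'' : u ∈ LinearMap.ker ((MA n e).map (aeval c0)).mulVecLin := by
      rw [← h2']
      exact h2
    obtain ⟨h3, h4⟩ := hc0 (Au u) (fun i => u (Sum.inr i)) (fun _ => rfl)
      ((ker_iff c0 u).1 h2'')
    apply hu0
    funext s
    rcases s with ⟨a, b⟩ | i
    · exact congrFun (congrFun h3 a.succ) b
    · exact congrFun h4 i
  have hne' : (((MA n e).map (aeval c)).transpose * (MA n e).map (aeval c)).det ≠ 0 := by
    rw [← map_det]
    intro h0
    exact hne (hc (by rw [h0, map_zero]))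
  let u : (Fin n × Fin (n + 1)) ⊕ ι → k := Sum.elim (fun p => A p.1.succ p.2) l
  have hAu : (Au u : Matrix _ _ k) = A := by
    funext a b
    refine Fin.cases ?_ (fun a => ?_) a
    · exact (hA0 b).symm
    · rfl
  have hu : ((MA n e).map (aeval c)).mulVec u = 0 := by
    rw [ker_iff, hAu]
    exact hA
  have hu0 : u = 0 := by
    by_contra hcon
    apply hne'
    rw [← Matrix.exists_mulVec_eq_zero_iff]
    refine ⟨u, hcon, ?_⟩
    rw [← Matrix.mulVec_mulVec, hu, Matrix.mulVec_zero]
  constructor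
  · rw [← hAu, hu0]
    funext a b
    refine Fin.cases ?_ (fun a => ?_) a
    · rfl
    · rfl
  · funext i
    exact congrFun hu0 (Sum.inr i)

end Pool.Agent.H64.CI
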