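import Pool.Agent.H17.CI.TargetsD

/-!
# MP_70ba79_ag: a determinant with known combinations of rows
-/

set_option autoImplicit false

namespace Pool.Agent.H64.CI

open MvPolynomial SC Pool.Agent.H27.LV Pool.Agent.H17.VG Pool.Agent.H17.CI

section
variable {k K : Type} [Field k] [Field K] [Algebra k K] {v : DV k K}

theorem ge_prod {α : Type} (s : Finset α) (f : α → K) (w : α → ℤ)
    (h : ∀ i ∈ s, ge v (w i) (f i)) : ge v (∑ i ∈ s, w i) (∏ i ∈ s, f i) := by
  classical
  induction s using Finset.induction_on with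
  | empty =>
    right
    simp [v.ord_one]
  | insert a s ha ih =>
    rw [Finset.prod_insert ha, Finset.sum_insert ha]
    exact (h a (Finset.mem_insert_self _ _)).mul
      (ih fun i hi => h i (Finset.mem_insert_of_mem hi))

theorem ge_sign {t : ℤ} {x : K} {α : Type} [Fintype α] [DecidableEq α] (σ : Equiv.Perm α)
    (h : ge v t x) : ge v t (((Equiv.Perm.sign σ : ℤˣ) : ℤ) * x : K) := by
  rcases Int.units_eq_one_or (Equiv.Perm.sign σ) with h1 | h1
  · rw [h1]
    simpa using h
  · rw [h1]
    simpa using h.neg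

/-- Leibniz formula -/
theorem det_ge {κ : Type} [Fintype κ] [DecidableEq κ] (B : Matrix (κ ⊕ Unit) (κ ⊕ Unit) K)
    (w : κ ⊕ Unit → ℤ) (ω : ℤ) (h1 : ∀ r c, ge v (w r) (B r (Sum.inl c)))
    (h2 : ∀ r, ge v (w r + ω) (B r (Sum.inr ()))) : ge v (∑ r, w r + ω) B.det := by
  rw [Matrix.det_apply']
  apply ge_sum
  intro σ _
  apply ge_sign
  have h3 := ge_prod (v := v) Finset.univ (fun i => B (σ i) i)
    (fun i => w (σ i) + Sum.elim (fun _ => 0) (fun _ => ω) i) (by
      intro i _
      rcases i with c | c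
      · simpa using h1 _ _
      · exact h2 _)
  rw [Finset.sum_add_distrib, Equiv.sum_comp σ w] at h3
  refine h3.mono (le_of_eq ?_)
  rw [Fintype.sum_sum_type]
  simp

end

/-- an injective map as part of an equivalence -/
noncomputable def eqv {α ρ : Type} (j : α → ρ) (hj : Function.Injective j) :
    α ⊕ {r // r ∉ Set.range j} ≃ ρ :=
  Equiv.ofBijective (Sum.elim j Subtype.val) (by
    constructor
    · rintro (a | a) (b | b) h
      · exact congrArg Sum.inl (hj h)
      · exact absurd ⟨a, h⟩ b.2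
      · exact absurd ⟨b, h.symm⟩ a.2
      · exact congrArg Sum.inr (Subtype.ext h)
    · intro r
      by_cases h : r ∈ Set.range j
      · obtain ⟨a, ha⟩ := h
        exact ⟨Sum.inl a, ha⟩
      · exact ⟨Sum.inr ⟨r, h⟩, rfl⟩)

theorem eqv_inl {α ρ : Type} (j : α → ρ) (hj : Function.Injective j) (a : α) :
    eqv j hj (Sum.inl a) = j a := rfl

theorem eqv_inr {α ρ : Type} (j : α → ρ) (hj : Function.Injective j)
    (r : {r // r ∉ Set.range j}) : eqv j hj (Sum.inr r) = r := rfl

theorem pf_DET : T_DET := by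
  intro k K _ _ _ v ρ κ ι _ _ _ _ _ Z A M J J' g e0 p ω u γ hZA hJ hJ' hdet hγ hdetZ hM1 hM2 hZ
    hAZ
  classical
  set Full : Matrix ρ ((κ ⊕ Unit) ⊕ Z) K := Matrix.of fun (r : ρ) (c : (κ ⊕ Unit) ⊕ Z) =>
    Sum.elim (fun c => M r c) (fun z => if J z = r then (1 : K) else 0) c with hFull
  set GA : Matrix A A K := Matrix.of fun i i' : A => g i (J' i') with hGA
  set GZ : Matrix Z Z K := Matrix.of fun i i' : Z => g i (J i') with hGZ
  let P : Matrix ρ ρ K := Matrix.of fun r r' =>
    if h : ∃ i : A, J' i = r then g h.choose r' else if r = r' then 1 else 0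
  have hP1 : ∀ (i : A) (r' : ρ), P (J' i) r' = g i r' := by
    intro i r'
    have h : ∃ i' : A, J' i' = J' i := ⟨i, rfl⟩
    have h2 : h.choose = i := hJ' h.choose_spec
    simp only [P, Matrix.of_apply]
    rw [dif_pos h, h2]
  have hP2 : ∀ (r r' : ρ), (∀ i : A, J' i ≠ r) → P r r' = if r = r' then 1 else 0 := by
    intro r r' h
    simp only [P, Matrix.of_apply]
    rw [dif_neg (by rintro ⟨i, hi⟩; exact h i hi)]
  -- the determinant of `P`
  have hPdet : P.det = GA.det := by
    rw [← Matrix.det_submatrix_equiv_self (eqv J' hJ') P]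
    have h1 : P.submatrix (eqv J' hJ') (eqv J' hJ') = Matrix.fromBlocks GA
        (Matrix.of fun i r => g i r.1) 0 1 := by
      ext a b
      rw [Matrix.submatrix_apply]
      rcases a with a | a
      · rw [eqv_inl]
        rcases b with b | b
        · rw [eqv_inl, hP1]
          rfl
        · rw [eqv_inr, hP1]
          rfl
      · rw [eqv_inr]
        have ha : ∀ i : A, J' i ≠ a.1 := fun i hi => a.2 ⟨i, hi⟩
        rcases b with b | b
        · rw [eqv_inl, hP2 _ _ ha, if_neg (fun h => ha b h.symm)]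
          rfl
        · rw [eqv_inr, hP2 _ _ ha, Matrix.fromBlocks_apply₂₂, Matrix.one_apply]
          exact if_congr Subtype.ext_iff.symm rfl rfl
    rw [h1, Matrix.det_fromBlocks_zero₂₁, Matrix.det_one, mul_one]
  -- the rows of the variety
  let jz : Z → ρ := fun z => J' ⟨z.1, hZA z.2⟩
  have hjz : Function.Injective jz := by
    intro z z' h
    have h1 := hJ' h
    exact Subtype.ext (congrArg (fun i : A => i.1) h1)
  have hcard : Fintype.card (κ ⊕ Unit) = Fintype.card {r // r ∉ Set.range jz} := by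
    have h1 := Fintype.card_congr e0
    have h2 := Fintype.card_congr (eqv jz hjz)
    rw [Fintype.card_sum] at h1 h2
    omega
  let f : κ ⊕ Unit ≃ {r // r ∉ Set.range jz} := Fintype.equivOfCardEq hcard
  let e1 : (κ ⊕ Unit) ⊕ Z ≃ ρ := (Equiv.sumCongr f (Equiv.refl Z)).trans
    ((Equiv.sumComm _ _).trans (eqv jz hjz))
  have he1 : ∀ z : Z, e1 (Sum.inr z) = jz z := by
    intro z
    simp only [e1, Equiv.trans_apply, Equiv.sumCongr_apply, Sum.map_inr, Equiv.sumComm_apply,
      Sum.swap_inr, Equiv.refl_apply]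
    rw [eqv_inl]
  have he1' : ∀ (c : κ ⊕ Unit) (z : Z), e1 (Sum.inl c) ≠ jz z := by
    intro c z h
    rw [← he1 z] at h
    have := e1.injective h
    cases this
  -- the block structure
  let B11 : Matrix (κ ⊕ Unit) (κ ⊕ Unit) K := Matrix.of fun r c =>
    (P * Full) (e1 (Sum.inl r)) (Sum.inl c)
  have hPF1 : ∀ (i : A) (c : κ ⊕ Unit), (P * Full) (J' i) (Sum.inl c) =
      ∑ r, g i r * M r c := by
    intro i c
    rw [Matrix.mul_apply]
    refine Finset.sum_congr rfl fun r _ => ?_
    rw [hP1]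
    rfl
  have hPF2 : ∀ (r : ρ) (c : κ ⊕ Unit), (∀ i : A, J' i ≠ r) → (P * Full) r (Sum.inl c) =
      M r c := by
    intro r c h
    rw [Matrix.mul_apply, Finset.sum_eq_single r]
    · rw [hP2 _ _ h, if_pos rfl, one_mul]
      rfl
    · intro r' _ hr'
      rw [hP2 _ _ h, if_neg (Ne.symm hr'), zero_mul]
    · intro h
      exact absurd (Finset.mem_univ _) h
  have hblock : (P * Full).submatrix e1 id = Matrix.fromBlocks B11
      (Matrix.of fun r z => (P * Full) (e1 (Sum.inl r)) (Sum.inr z)) 0 GZ := by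
    ext a b
    rw [Matrix.submatrix_apply]
    rcases a with a | a
    · rcases b with b | b
      · rfl
      · rfl
    · rw [he1]
      rcases b with b | b
      · change (P * Full) (J' ⟨a.1, hZA a.2⟩) (Sum.inl b) = 0
        rw [hPF1]
        exact hZ a.1 a.2 b
      · change (P * Full) (J' ⟨a.1, hZA a.2⟩) (Sum.inr b) = g a (J b)
        rw [Matrix.mul_apply, Finset.sum_eq_single (J b)]
        · rw [hP1]
          simp [hFull]
        · intro r _ hr
          simp [hFull, Ne.symm hr]
        · intro h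
          exact absurd (Finset.mem_univ _) h
  have hdet1 : ((P * Full).submatrix e1 id).det = B11.det * GZ.det := by
    rw [hblock, Matrix.det_fromBlocks_zero₂₁]
  have hdet2 : ((P * Full).submatrix e0 id).det =
      ((Equiv.Perm.sign (e0.trans e1.symm) : ℤˣ) : ℤ) * (B11.det * GZ.det) := by
    rw [← hdet1, ← Matrix.det_permute]
    congr 1
    ext a b
    simp only [Matrix.submatrix_apply, Equiv.trans_apply, Equiv.apply_symm_apply, id]
  have hdet3 : ((P * Full).submatrix e0 id).det = GA.det * (Full.submatrix e0 id).det := by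
    have h1 : (P * Full).submatrix e0 id = P.submatrix e0 e0 * Full.submatrix e0 id :=
      (Matrix.submatrix_mul_equiv P Full e0 e0 id).symm
    rw [h1, Matrix.det_mul, Matrix.det_submatrix_equiv_self, hPdet]
  -- the weights
  let w : ρ → ℤ := fun r => if h : ∃ i : A, J' i = r then u h.choose else -(p : ℤ)
  have hw1 : ∀ i : A, w (J' i) = u i := by
    intro i
    have h : ∃ i' : A, J' i' = J' i := ⟨i, rfl⟩
    have h2 : h.choose = i := hJ' h.choose_spec
    simp only [w]
    rw [dif_pos h, h2]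
  have hw2 : ∀ r : ρ, (∀ i : A, J' i ≠ r) → w r = -(p : ℤ) := by
    intro r h
    simp only [w]
    rw [dif_neg (by rintro ⟨i, hi⟩; exact h i hi)]
  have hB : ge v (∑ r, w (e1 (Sum.inl r)) + ω) B11.det := by
    apply det_ge
    · intro r c
      change ge v (w (e1 (Sum.inl r))) ((P * Full) (e1 (Sum.inl r)) (Sum.inl (Sum.inl c)))
      by_cases h : ∃ i : A, J' i = e1 (Sum.inl r)
      · obtain ⟨i, hi⟩ := h
        rw [← hi, hw1, hPF1]
        refine (hAZ i.1 i.2 fun hiz => ?_).1 c
        exact he1' r ⟨i.1, hiz⟩ hi.symm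
      · push Not at h
        rw [hw2 _ h, hPF2 _ _ h]
        exact hM1 _ _
    · intro r
      change ge v (w (e1 (Sum.inl r)) + ω) ((P * Full) (e1 (Sum.inl r)) (Sum.inl (Sum.inr ())))
      by_cases h : ∃ i : A, J' i = e1 (Sum.inl r)
      · obtain ⟨i, hi⟩ := h
        rw [← hi, hw1, hPF1]
        refine (hAZ i.1 i.2 fun hiz => ?_).2
        exact he1' r ⟨i.1, hiz⟩ hi.symm
      · push Not at h
        rw [hw2 _ h, hPF2 _ _ h]
        exact hM2 _
  have hsum : ∑ r, w (e1 (Sum.inl r)) =
      ∑ i ∈ A \ Z, u i - ((Fintype.card ρ : ℤ) - A.card) * p := by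
    have h1 : ∑ r, w r = ∑ r, w (e1 (Sum.inl r)) + ∑ z : Z, u z := by
      rw [← Equiv.sum_comp e1 w, Fintype.sum_sum_type]
      congr 1
      refine Finset.sum_congr rfl fun z _ => ?_
      rw [he1]
      exact hw1 _
    have h2 : ∑ r, w r = ∑ i : A, u i +
        (Fintype.card {r // r ∉ Set.range J'} : ℤ) * (-(p : ℤ)) := by
      rw [← Equiv.sum_comp (eqv J' hJ') w, Fintype.sum_sum_type]
      congr 1
      · refine Finset.sum_congr rfl fun i _ => ?_
        rw [eqv_inl, hw1]
      · rw [Finset.sum_congr rfl fun (r : {r // r ∉ Set.range J'}) _ =>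
          (show w (eqv J' hJ' (Sum.inr r)) = -(p : ℤ) by
            rw [eqv_inr, hw2 _ fun i hi => r.2 ⟨i, hi⟩])]
        rw [Finset.sum_const, Finset.card_univ, nsmul_eq_mul]
    have h3 : (Fintype.card ρ : ℤ) = A.card + Fintype.card {r // r ∉ Set.range J'} := by
      have h4 := Fintype.card_congr (eqv J' hJ')
      rw [Fintype.card_sum, Fintype.card_coe] at h4
      rw [← h4]
      push_cast
      rfl
    have h5 : ∑ i ∈ A \ Z, u i = ∑ i ∈ A, u i - ∑ i ∈ Z, u i := by
      rw [← Finset.sum_sdiff hZA]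
      ring
    have h6 : ∑ z : Z, u z = ∑ i ∈ Z, u i := Finset.sum_coe_sort Z u
    have h7 : ∑ i : A, u i = ∑ i ∈ A, u i := Finset.sum_coe_sort A u
    rw [h5, h3, ← h6, ← h7]
    linarith
  -- end
  by_cases h0 : (Full.submatrix e0 id).det = 0
  · exact Or.inl h0
  right
  have h1 : GA.det * (Full.submatrix e0 id).det =
      ((Equiv.Perm.sign (e0.trans e1.symm) : ℤˣ) : ℤ) * (B11.det * GZ.det) := by
    rw [← hdet3, hdet2]
  have h2 : ge v (∑ r, w (e1 (Sum.inl r)) + ω + v.ord GZ.det)
      (((Equiv.Perm.sign (e0.trans e1.symm) : ℤˣ) : ℤ) * (B11.det * GZ.det) : K) :=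
    ge_sign _ (hB.mul (ge_of_ord v))
  rw [← h1] at h2
  have h3 := h2.resolve_left (mul_ne_zero hdet h0)
  rw [v.ord_mul' hdet h0, hγ, hsum] at h3
  linarith

end Pool.Agent.H64.CI
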