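import Pool.Agent.H17.CI.TargetsX

/-!
# MP_70ba79_ag: Jacobian criterion
-/

set_option autoImplicit false

namespace Pool.Agent.H64.CI

open MvPolynomial SC Pool.Agent.H27.LV Pool.Agent.H17.VG Pool.Agent.H17.CI

section
variable {L κ : Type} [Field L] [CharZero L]

/-- derivations are linear over the rational numbers -/
noncomputable def ratDer (θ : Derivation ℤ L L) : Derivation ℚ L L :=
  Derivation.mk' θ.toLinearMap.toAddMonoidHom.toRatLinearMap (fun a b => θ.leibniz a b)

theorem ratDer_apply (θ : Derivation ℤ L L) (z : L) : ratDer θ z = θ z := rfl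

theorem der_aeval [DecidableEq κ] (c : κ → L) (M0 : κ) (θ : Derivation ℤ L L)
    (hθ : ∀ M, θ (c M) = if M = M0 then 1 else 0) (P : MvPolynomial κ ℚ) :
    ratDer θ (aeval c P) = aeval c (pderiv M0 P) := by
  induction P using MvPolynomial.induction_on with
  | C a => rw [aeval_C, pderiv_C, map_zero, (ratDer θ).map_algebraMap]
  | add p q hp hq => rw [map_add, map_add, hp, hq, map_add, map_add]
  | mul_X p i hp =>
    rw [map_mul, aeval_X, (ratDer θ).leibniz, hp, ratDer_apply, hθ, pderiv_mul, pderiv_X,
      map_add, map_mul, map_mul, aeval_X, smul_eq_mul, smul_eq_mul]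
    by_cases h : i = M0
    · subst h
      simp
      ring
    · rw [if_neg h, Pi.single_eq_of_ne (Ne.symm (fun h' => h h'.symm))]
      simp
      ring

end

theorem pf_JCR : T_JCR := by
  classical
  intro L κ _ _ _ c hc
  have key : ∀ n : ℕ, ∀ P : MvPolynomial κ ℚ, (∀ m, coeff m P ≠ 0 → m.degree ≤ n) →
      aeval c P = 0 → P = 0 := by
    have hconst : ∀ P : MvPolynomial κ ℚ, (∀ m, m ≠ 0 → coeff m P = 0) → aeval c P = 0 →
        P = 0 := by
      intro P h1 h2
      have h3 : P = C (coeff 0 P) := by
        ext m
        rw [coeff_C]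
        split_ifs with h
        · rw [← h]
        · exact h1 m (Ne.symm h)
      rw [h3, aeval_C] at h2
      have h4 : coeff 0 P = 0 := (map_eq_zero _).1 h2
      rw [h3, h4, C_0]
    intro n
    induction n with
    | zero =>
      intro P h1 h2
      refine hconst P (fun m hm => ?_) h2
      by_contra hcon
      have h3 := h1 m hcon
      exact hm ((Finsupp.degree_eq_zero_iff m).1 (Nat.le_zero.1 h3))
    | succ n ih =>
      intro P h1 h2
      have h3 : ∀ M0, pderiv M0 P = 0 := by
        intro M0
        obtain ⟨θ, hθ⟩ := hc fun M => if M = M0 then 1 else 0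
        apply ih
        · intro m hm
          rw [coeff_pderiv] at hm
          have h4 := h1 _ (left_ne_zero_of_mul hm)
          rw [map_add, Finsupp.degree_single] at h4
          omega
        · rw [← der_aeval c M0 θ hθ, h2, map_zero]
      refine hconst P (fun m hm => ?_) h2
      obtain ⟨M0, hM0⟩ : ∃ M0, m M0 ≠ 0 := by
        by_contra hcon
        push Not at hcon
        exact hm (Finsupp.ext hcon)
      have h5 := congrArg (coeff (m - Finsupp.single M0 1)) (h3 M0)
      rw [coeff_pderiv, coeff_zero, tsub_add_cancel_of_le (by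
        rw [Finsupp.single_le_iff]
        omega)] at h5
      rcases mul_eq_zero.1 h5 with h6 | h6
      · exact h6
      · exfalso
        exact Nat.cast_add_one_ne_zero (R := ℚ) _ h6
  rw [AlgebraicIndependent, injective_iff_map_eq_zero]
  intro P hP
  exact key (P.support.sup fun m => m.degree) P
    (fun m hm => Finset.le_sup (f := fun m : κ →₀ ℕ => m.degree) (mem_support_iff.2 hm)) hP

end Pool.Agent.H64.CI
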